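import Mathlib

/-!
# EV3, block (5): the labels of the strands

`P`: the passages = the edges (`e` is the edge from the passage `e` to the passage `nxt e`), `op` the other passage
of the crossing, `C` a set of cut edges, `τ` a time function which increases along all other edges. The
Seifert successor of an edge `e` is `op (nxt e)`. `lab f`: the cut edge at which the strand of
the edge `f` starts, `dep f`: the number of edges between them.
-/

set_option autoImplicit false

namespace Pool.Agent.Helper41.PD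

/-- A cut shadow. -/
structure Cut {P : Type} (nxt : Equiv.Perm P) (op : P → P) (C : Finset P) (τ : P → ℕ) : Prop where
  op_op : ∀ p, op (op p) = p
  τ_op : ∀ p, τ (op p) = τ p
  mono : ∀ e, e ∉ C → τ e < τ (nxt e)

variable {P : Type} {nxt : Equiv.Perm P} {op : P → P} {C : Finset P} {τ : P → ℕ}

/-- the Seifert successor -/
def sc (nxt : Equiv.Perm P) (op : P → P) (e : P) : P := op (nxt e)

/-- the Seifert predecessor -/
def pr (nxt : Equiv.Perm P) (op : P → P) (f : P) : P := nxt.symm (op f)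

theorem Cut.sc_pr (H : Cut nxt op C τ) (f : P) : sc nxt op (pr nxt op f) = f := by
  unfold sc pr
  rw [Equiv.apply_symm_apply, H.op_op]

theorem Cut.pr_sc (H : Cut nxt op C τ) (e : P) : pr nxt op (sc nxt op e) = e := by
  unfold sc pr
  rw [H.op_op, Equiv.symm_apply_apply]

theorem Cut.nxt_pr (f : P) : nxt (pr nxt op f) = op f := by
  unfold pr
  rw [Equiv.apply_symm_apply]

theorem Cut.τ_sc (H : Cut nxt op C τ) (e : P) : τ (sc nxt op e) = τ (nxt e) := H.τ_op _

theorem Cut.τ_pr (H : Cut nxt op C τ) {f : P} (h : pr nxt op f ∉ C) : τ (pr nxt op f) < τ f := by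
  have h1 := H.mono _ h
  rwa [Cut.nxt_pr, H.τ_op] at h1

theorem Cut.τ_lt_sc (H : Cut nxt op C τ) {e : P} (h : e ∉ C) : τ e < τ (sc nxt op e) := by
  rw [H.τ_sc]
  exact H.mono e h

theorem Cut.ex_lab (H : Cut nxt op C τ) (f : P) : ∃ k : ℕ, (pr nxt op)^[k + 1] f ∈ C := by
  induction hn : τ f using Nat.strong_induction_on generalizing f with
  | _ n ih =>
    by_cases h : pr nxt op f ∈ C
    · exact ⟨0, h⟩
    · obtain ⟨k, hk⟩ := ih _ (hn ▸ H.τ_pr h) (pr nxt op f) rfl
      exact ⟨k + 1, by rwa [Function.iterate_succ_apply]⟩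

open Classical in
/-- the number of steps back to the cut edge -/
noncomputable def Cut.dep (H : Cut nxt op C τ) (f : P) : ℕ := Nat.find (H.ex_lab f)

/-- the label of the strand which leaves the passage `f` -/
noncomputable def Cut.lab (H : Cut nxt op C τ) (f : P) : P := (pr nxt op)^[H.dep f + 1] f

variable (H : Cut nxt op C τ)

include H

theorem Cut.lab_mem (f : P) : H.lab f ∈ C := by
  classical
  exact Nat.find_spec (H.ex_lab f)

theorem Cut.dep_sc_mem {e : P} (h : e ∈ C) : H.dep (sc nxt op e) = 0 := by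
  classical
  unfold Cut.dep
  rw [Nat.find_eq_zero]
  rw [zero_add, Function.iterate_one, H.pr_sc]
  exact h

theorem Cut.lab_sc_mem {e : P} (h : e ∈ C) : H.lab (sc nxt op e) = e := by
  unfold Cut.lab
  rw [H.dep_sc_mem h, zero_add, Function.iterate_one, H.pr_sc]

theorem Cut.dep_sc {e : P} (h : e ∉ C) : H.dep (sc nxt op e) = H.dep e + 1 := by
  classical
  have h0 : ¬ (pr nxt op)^[0 + 1] (sc nxt op e) ∈ C := by
    rw [zero_add, Function.iterate_one, H.pr_sc]
    exact h
  have h2 : ∃ n, (pr nxt op)^[n + 1 + 1] (sc nxt op e) ∈ C := by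
    obtain ⟨k, hk⟩ := H.ex_lab e
    refine ⟨k, ?_⟩
    rwa [Function.iterate_succ_apply, H.pr_sc]
  have h3 := Nat.find_comp_succ (H.ex_lab (sc nxt op e)) h2 h0
  unfold Cut.dep
  rw [h3]
  congr 1
  apply le_antisymm
  · apply Nat.find_min'
    have := Nat.find_spec (H.ex_lab e)
    rwa [Function.iterate_succ_apply, H.pr_sc]
  · apply Nat.find_min'
    have := Nat.find_spec h2
    rwa [Function.iterate_succ_apply, H.pr_sc] at this

theorem Cut.lab_sc {e : P} (h : e ∉ C) : H.lab (sc nxt op e) = H.lab e := by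
  unfold Cut.lab
  rw [H.dep_sc h, Function.iterate_succ_apply, H.pr_sc]

theorem Cut.sc_iter_pr (n : ℕ) (f : P) : (sc nxt op)^[n] ((pr nxt op)^[n] f) = f :=
  Function.LeftInverse.iterate (fun x => H.sc_pr x) n f

theorem Cut.sc_iter_lab (f : P) : (sc nxt op)^[H.dep f + 1] (H.lab f) = f := H.sc_iter_pr _ f

theorem Cut.eq_of_dep {f g : P} (h1 : H.lab f = H.lab g) (h2 : H.dep f = H.dep g) : f = g := by
  rw [← H.sc_iter_lab f, ← H.sc_iter_lab g, h1, h2]

theorem Cut.eq_iter {f g : P} (h1 : H.lab f = H.lab g) (h2 : H.dep f ≤ H.dep g) :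
    g = (sc nxt op)^[H.dep g - H.dep f] f := by
  have e1 := H.sc_iter_lab g
  have e2 := H.sc_iter_lab f
  calc g = (sc nxt op)^[H.dep g + 1] (H.lab g) := e1.symm
    _ = (sc nxt op)^[(H.dep g - H.dep f) + (H.dep f + 1)] (H.lab f) := by
        rw [h1, show (H.dep g - H.dep f) + (H.dep f + 1) = H.dep g + 1 by omega]
    _ = (sc nxt op)^[H.dep g - H.dep f] ((sc nxt op)^[H.dep f + 1] (H.lab f)) :=
        Function.iterate_add_apply _ _ _ _
    _ = (sc nxt op)^[H.dep g - H.dep f] f := by rw [e2]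

theorem Cut.dep_iter_le (j : ℕ) (f : P) : H.dep ((sc nxt op)^[j] f) ≤ H.dep f + j := by
  induction j with
  | zero => simp
  | succ j ih =>
    rw [Function.iterate_succ_apply']
    by_cases h : (sc nxt op)^[j] f ∈ C
    · rw [H.dep_sc_mem h]
      omega
    · rw [H.dep_sc h]
      omega

theorem Cut.iter_not_mem {f : P} {k : ℕ} (h : H.dep ((sc nxt op)^[k] f) = H.dep f + k) :
    ∀ i < k, (sc nxt op)^[i] f ∉ C := by
  intro i hi hmem
  have h1 : H.dep ((sc nxt op)^[i + 1] f) = 0 := by
    rw [Function.iterate_succ_apply']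
    exact H.dep_sc_mem hmem
  have h2 := H.dep_iter_le (k - (i + 1)) ((sc nxt op)^[i + 1] f)
  rw [← Function.iterate_add_apply, h1, show k - (i + 1) + (i + 1) = k by omega] at h2
  omega

theorem Cut.iter_lab_dep {f : P} {k : ℕ} (h : ∀ i < k, (sc nxt op)^[i] f ∉ C) :
    H.lab ((sc nxt op)^[k] f) = H.lab f ∧ H.dep ((sc nxt op)^[k] f) = H.dep f + k := by
  induction k with
  | zero => simp
  | succ k ih =>
    obtain ⟨h1, h2⟩ := ih fun i hi => h i (by omega)
    rw [Function.iterate_succ_apply', H.lab_sc (h k (by omega)), H.dep_sc (h k (by omega)), h1, h2]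
    exact ⟨rfl, by omega⟩

theorem Cut.τ_iter {f : P} {k : ℕ} (h : ∀ i < k, (sc nxt op)^[i] f ∉ C) :
    τ f + k ≤ τ ((sc nxt op)^[k] f) := by
  induction k with
  | zero => simp
  | succ k ih =>
    have h1 := ih fun i hi => h i (by omega)
    have h2 := H.τ_lt_sc (h k (by omega))
    rw [Function.iterate_succ_apply']
    omega

theorem Cut.τ_lt {f g : P} (h1 : H.lab f = H.lab g) (h2 : H.dep f < H.dep g) : τ f < τ g := by
  have h3 := H.eq_iter h1 h2.le
  have h4 : H.dep ((sc nxt op)^[H.dep g - H.dep f] f) = H.dep f + (H.dep g - H.dep f) := by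
    rw [← h3]
    omega
  have h5 := H.τ_iter (H.iter_not_mem h4)
  rw [← h3] at h5
  omega

theorem Cut.dep_lt {f g : P} (h1 : H.lab f = H.lab g) (h2 : τ f < τ g) : H.dep f < H.dep g := by
  by_contra h
  rcases Nat.lt_or_eq_of_le (not_lt.1 h) with h3 | h3
  · exact absurd (H.τ_lt h1.symm h3) (by omega)
  · rw [H.eq_of_dep h1 h3.symm] at h2
    exact absurd h2 (lt_irrefl _)

/-- a cut edge is the last edge of its strand -/
theorem Cut.last {c g : P} (hc : c ∈ C) (h1 : H.lab g = H.lab c) : H.dep g ≤ H.dep c := by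
  by_contra h
  push Not at h
  have h3 := H.eq_iter h1.symm h.le
  have h4 : H.dep ((sc nxt op)^[H.dep g - H.dep c] c) = H.dep c + (H.dep g - H.dep c) := by
    rw [← h3]
    omega
  exact H.iter_not_mem h4 0 (by omega) hc

end Pool.Agent.Helper41.PD
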