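import Pool.Agent.Helper41.PD.Boxes
import Pool.Agent.Helper2.PD.Corners
import Pool.Agent.Helper49.PD.SpecialSc
import Pool.Agent.Helper52.PD.CutS

/-!
# EV3, block (5): the boxes of a shadow
-/

set_option autoImplicit false

namespace Pool.Agent.Helper41.PD

section

variable {P : Type} {nxt : Equiv.Perm P} {op : P → P} {C : Finset P} {τ : P → ℕ}

/-- The time can be made injective on the crossings. -/
theorem Cut.refine_inj [Finite P] (H : Cut nxt op C τ) :
    ∃ τ' : P → ℕ, Cut nxt op C τ' ∧ ∀ p q, τ' p = τ' q → q = p ∨ q = op p := by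
  classical
  obtain ⟨n, ⟨e⟩⟩ := Finite.exists_equiv_fin P
  obtain ⟨ν, hν⟩ : ∃ ν : P → ℕ, ∀ p, ν p = min (e p : ℕ) (e (op p) : ℕ) := ⟨_, fun _ => rfl⟩
  have h1 : ∀ p, ν p < n := fun p => by
    rw [hν]
    exact lt_of_le_of_lt (min_le_left _ _) (e p).2
  have h2 : ∀ p, ν (op p) = ν p := fun p => by
    rw [hν, hν, H.op_op, min_comm]
  have h3 : ∀ p q, ν p = ν q → q = p ∨ q = op p := by
    intro p q h
    rw [hν, hν] at h
    have inj : ∀ a b, (e a : ℕ) = (e b : ℕ) → a = b := fun a b hab => e.injective (Fin.ext hab)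
    rcases min_choice (e p : ℕ) (e (op p) : ℕ) with a | a <;>
      rcases min_choice (e q : ℕ) (e (op q) : ℕ) with b | b <;> rw [a, b] at h
    · exact Or.inl (inj _ _ h).symm
    · right
      rw [inj _ _ h, H.op_op]
    · exact Or.inr (inj _ _ h).symm
    · left
      rw [← H.op_op q, ← inj _ _ h, H.op_op]
  refine ⟨fun p => τ p * n + ν p, ⟨H.op_op, fun p => by rw [H.τ_op, h2], fun a ha =>
    lex_lt (H.mono a ha) (h1 a)⟩, fun p q h => ?_⟩
  have h : τ p * n + ν p = τ q * n + ν q := h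
  rcases Nat.lt_trichotomy (τ p) (τ q) with h4 | h4 | h4
  · exact absurd (lex_lt (y := ν q) h4 (h1 p)) (by omega)
  · rw [h4] at h
    exact h3 p q (by omega)
  · exact absurd (lex_lt (y := ν p) h4 (h1 q)) (by omega)

/-- The boxes of a cut shadow: labels from the travel-left to the travel-right, and the crossings (the passage
`p` with `lf p = true`, and the position of its label). -/
structure SB (H : Cut nxt op C τ) (lf : P → Bool) (Sp : Finset P)
    (Bs : List (List P × List (P × ℕ))) : Prop where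
  nd : ∀ b ∈ Bs, b.1.Nodup
  mem : ∀ b ∈ Bs, ∀ x ∈ b.1, x ∈ C
  let_ : ∀ b ∈ Bs, ∀ c ∈ b.2, b.1[c.2]? = some (H.lab c.1) ∧
    b.1[c.2 + 1]? = some (H.lab (op c.1))
  all : ∀ p, p ∈ (Bs.flatMap fun b => b.2.map Prod.fst) ↔ lf p = true
  srt : (Bs.flatMap fun b => b.2.map Prod.fst).Pairwise fun a b => τ a < τ b
  ord : (Bs.flatMap fun b => b.2.map Prod.fst).Pairwise fun p p' =>
    ∀ e e', (e = p ∨ e = op p) → (e' = p' ∨ e' = op p') → H.lab e = H.lab e' → H.dep e < H.dep e'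
  ex : ∀ b ∈ Bs, ∀ k, k + 1 < b.1.length → ∃ c ∈ b.2, c.2 = k
  spec : ∀ b ∈ Bs, (∀ c ∈ b.2, c.1 ∉ Sp) ∨ ∃ p ∈ Sp, ∃ k, b.2 = [(p, k)]
  ne : ∀ b ∈ Bs, b.2 ≠ []

theorem exists_SB [Fintype P] (H : Cut nxt op C τ) {lf : P → Bool}
    (hlf : ∀ p, lf (op p) = !lf p) {Sp : Finset P} (hSp1 : ∀ p ∈ Sp, lf p = true)
    (hSp : ∀ p, lf p = true → p ∉ Sp → Reg nxt op C lf p) (ht : P → ℤ)
    (hsc : ∀ e, ht (sc nxt op e) = ht e) (hop : ∀ p, lf p = true → ht (op p) = ht p + 1) :
    ∃ (τ' : P → ℕ) (H' : Cut nxt op C τ') (Bs : List (List P × List (P × ℕ))),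
      (∀ p q, τ' p = τ' q → q = p ∨ q = op p) ∧
      Bs.length ≤ 2 * (Sp.card + 1) * C.card ∧ SB H' lf Sp Bs := by
  classical
  obtain ⟨τ0, H0, hinj0⟩ := H.refine_inj
  obtain ⟨τ', H', Bs, h1, h2, h3, h4, h5⟩ := boxes H0 hinj0 hlf hSp1 hSp ht hsc hop
  have hB : ∀ B ∈ Bs, IsBox H' Sp B := fun B hB =>
    ⟨(h5 B hB).nodup, (h5 B hB).mem, (h5 B hB).letter, (h5 B hB).ex, (h5 B hB).spec⟩
  let f : List P × List P → List P × List (P × ℕ) := fun B =>
    (B.1, B.2.map fun p => (p, B.1.idxOf (H'.lab p)))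
  have hf : ∀ B : List P × List P, (f B).2.map Prod.fst = B.2 := by
    intro B
    simp only [f, List.map_map]
    exact List.map_id _
  let Bs' := (Bs.filter fun B => decide (B.2 ≠ [])).map f
  have hmem : ∀ b ∈ Bs', ∃ B ∈ Bs, B.2 ≠ [] ∧ b = f B := by
    intro b hb
    rw [List.mem_map] at hb
    obtain ⟨B, hB1, rfl⟩ := hb
    rw [List.mem_filter] at hB1
    exact ⟨B, hB1.1, by simpa using hB1.2, rfl⟩
  have hcrs : (Bs'.flatMap fun b => b.2.map Prod.fst) =
      (Bs.filter fun B => decide (B.2 ≠ [])).flatMap Prod.snd := by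
    rw [List.flatMap_map]
    exact List.flatMap_congr fun B _ => hf B
  have hsrt : (Bs'.flatMap fun b => b.2.map Prod.fst).Pairwise fun a b => τ' a < τ' b := by
    rw [hcrs, List.pairwise_flatMap]
    rw [List.pairwise_flatMap] at h3
    exact ⟨fun B hB => h3.1 B (List.mem_filter.1 hB).1, h3.2.filter _⟩
  have hidx : ∀ B ∈ Bs, ∀ p ∈ B.2, ∃ k, ∃ hk : k + 1 < B.1.length, B.1.idxOf (H'.lab p) = k ∧
      B.1[k] = H'.lab p ∧ B.1[k + 1] = H'.lab (op p) := by
    intro B hB1 p hp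
    obtain ⟨k, hk, k1, k2⟩ := (hB B hB1).letter p hp
    refine ⟨k, hk, ?_, k1, k2⟩
    rw [← k1]
    exact List.Nodup.idxOf_getElem (hB B hB1).nodup k (by omega)
  refine ⟨τ', H', Bs', h1, ?_, ?_⟩
  · rw [← h2]
    rw [List.length_map]
    exact List.length_filter_le _ _
  · refine ⟨?_, ?_, ?_, ?_, hsrt, ?_, ?_, ?_, ?_⟩
    · intro b hb
      obtain ⟨B, hB1, -, rfl⟩ := hmem b hb
      exact (hB B hB1).nodup
    · intro b hb
      obtain ⟨B, hB1, -, rfl⟩ := hmem b hb
      exact (hB B hB1).mem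
    · intro b hb c hc
      obtain ⟨B, hB1, -, rfl⟩ := hmem b hb
      simp only [f, List.mem_map] at hc
      obtain ⟨p, hp, rfl⟩ := hc
      obtain ⟨k, hk, k0, k1, k2⟩ := hidx B hB1 p hp
      simp only [f]
      rw [k0]
      exact ⟨by rw [List.getElem?_eq_getElem (by omega), k1],
        by rw [List.getElem?_eq_getElem hk, k2]⟩
    · intro p
      rw [hcrs, ← h4 p, List.mem_flatMap, List.mem_flatMap]
      constructor
      · rintro ⟨B, hB1, hp⟩
        exact ⟨B, (List.mem_filter.1 hB1).1, hp⟩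
      · rintro ⟨B, hB1, hp⟩
        exact ⟨B, List.mem_filter.2 ⟨hB1, by simpa using List.ne_nil_of_mem hp⟩, hp⟩
    · refine hsrt.imp ?_
      intro p p' hpp e e' he he' hl
      refine H'.dep_lt hl ?_
      have e1 : τ' e = τ' p := by
        rcases he with h | h
        · rw [h]
        · rw [h, H'.τ_op]
      have e2 : τ' e' = τ' p' := by
        rcases he' with h | h
        · rw [h]
        · rw [h, H'.τ_op]
      omega
    · intro b hb k hk
      obtain ⟨B, hB1, -, rfl⟩ := hmem b hb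
      obtain ⟨p, hp, p1, p2⟩ := (hB B hB1).ex k hk
      refine ⟨(p, B.1.idxOf (H'.lab p)), List.mem_map.2 ⟨p, hp, rfl⟩, ?_⟩
      show B.1.idxOf (H'.lab p) = k
      rw [← p1]
      exact List.Nodup.idxOf_getElem (hB B hB1).nodup k (by
        have : k + 1 < B.1.length := hk
        omega)
    · intro b hb
      obtain ⟨B, hB1, -, rfl⟩ := hmem b hb
      rcases (hB B hB1).spec with h | ⟨p, hp, h⟩
      · left
        intro c hc
        simp only [f, List.mem_map] at hc
        obtain ⟨p, hp, rfl⟩ := hc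
        exact h p hp
      · right
        refine ⟨p, hp, B.1.idxOf (H'.lab p), ?_⟩
        simp only [f, h, List.map_cons, List.map_nil]
    · intro b hb
      obtain ⟨B, hB1, hne, rfl⟩ := hmem b hb
      simp only [f]
      simpa using hne

end

section shadow

open Pool.Agent.Helper85.Exp Pool.Agent.Helper2.PD

variable {P : Type} {G : Sh P}

open Classical in
/-- the special crossings -/
noncomputable def spc [Fintype P] (G : Sh P) (C : Finset P) : Finset P :=
  Finset.univ.filter fun p => G.lf p = true ∧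
    ((kf G (Rf G p) ≠ 1 ∨ ∃ e ∈ C, Lf G e = Rf G p ∨ Rf G e = Rf G p) ∨
      (kf G (Lf G (G.nxt.symm p)) ≠ 1 ∨
        ∃ e ∈ C, Lf G e = Lf G (G.nxt.symm p) ∨ Rf G e = Lf G (G.nxt.symm p)))

/-- **The boxes of a shadow.** -/
theorem shadow_boxes [Fintype P] (ho : ∀ i, G.op i ≠ i) (hc : Conn G) (hpl : Planar G)
    (σ : Equiv.Perm P) (hσ : ∀ e, σ e = G.op (G.nxt e)) {s : ℕ}
    (hs : Nat.card (Quotient (Equiv.Perm.SameCycle.setoid σ)) ≤ s) :
    ∃ (C : Finset P) (τ : P → ℕ) (H : Cut G.nxt G.op C τ) (Bs : List (List P × List (P × ℕ))),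
      C.card ≤ s * s * s ∧ (spc G C).card ≤ 8 * s + 4 * (s * s * s) ∧
      Bs.length ≤ 2 * (8 * s + 4 * (s * s * s) + 1) * (s * s * s) ∧
      (∀ p q, τ p = τ q → q = p ∨ q = G.op p) ∧ SB H G.lf (spc G C) Bs := by
  classical
  have hlf : ∀ p, G.lf (G.op p) = !G.lf p := fun p => G.lf_op p (ho p)
  obtain ⟨κ, hκ⟩ := exists_kappa hc ho hpl
  haveI : Fintype (Face G) := Fintype.ofFinite _
  have hlf' : ∀ x, G.lf x = false → G.lf (G.op x) = true := fun x hx => by
    rw [hlf, hx]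
    rfl
  obtain ⟨C, τ, hC, t1, t2, -⟩ := Pool.Agent.Helper52.PD.cutS G.nxt G.op G.op_op ho G.lf hlf
    (Lf G) (Rf G)
    (fun f => face_ind (p := fun f => ∃ e, Lf G e = f ∨ Rf G e = f)
      (fun i => ⟨i, Or.inl rfl⟩) (fun i => ⟨i, Or.inr rfl⟩) f)
    (fun x hx => by
      have h1 := corner_W (hlf' x hx) (ho _)
      rw [G.op_op] at h1
      exact h1.symm)
    (fun x hx => by
      have h1 := corner_S (hlf' x hx)
      rw [G.op_op] at h1
      exact h1.symm)
    (fun x hx => by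
      have h1 := corner_N (hlf' x hx)
      rw [G.op_op] at h1
      exact h1.symm)
    (fun x hx => by
      have h1 := corner_E (hlf' x hx) (ho _)
      rw [G.op_op] at h1
      exact h1.symm)
    κ hκ (fun y hy => circ_int hc ho hpl y hy) σ hσ hs
  have H : Cut G.nxt G.op C τ := ⟨G.op_op, t1, t2⟩
  have hScard : (spc G C).card ≤ 8 * s + 4 * (s * s * s) := by
    refine (special_card ho hpl σ hσ hs C (spc G C) ?_).trans (by omega)
    intro p hp
    exact (Finset.mem_filter.1 hp).2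
  have hreg : ∀ p, G.lf p = true → p ∉ spc G C → Reg G.nxt G.op C G.lf p := by
    intro p hp hsp
    have h1 : ¬ ((kf G (Rf G p) ≠ 1 ∨ ∃ e ∈ C, Lf G e = Rf G p ∨ Rf G e = Rf G p) ∨
      (kf G (Lf G (G.nxt.symm p)) ≠ 1 ∨
        ∃ e ∈ C, Lf G e = Lf G (G.nxt.symm p) ∨ Rf G e = Lf G (G.nxt.symm p))) := by
      intro h
      exact hsp (Finset.mem_filter.2 ⟨Finset.mem_univ _, hp, h⟩)
    push Not at h1
    obtain ⟨⟨h2, h3⟩, -⟩ := h1
    have h4 := Pool.Agent.Helper49.PD.regW_of (G := G) ho (C := fun e => e ∈ C) hp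
      (fun e he hm => by
        rcases he with he | he
        · exact (h3 e hm).1 he
        · exact (h3 e hm).2 he)
      (fun x y hx hy hx2 hy2 => by
        obtain ⟨q, -, hq⟩ := kf_one_S ho h2
        rw [hq x hx hx2, hq y hy hy2])
    obtain ⟨m, m', a1, a2, a3, a4, a5, -, a6⟩ :=
      Pool.Agent.Helper49.PD.RegW.sc_form G.op_op hlf h4
    exact ⟨m, m', a1, a2, a3, a4, a5, a6⟩
  have hop : ∀ p, G.lf p = true → -κ (Lf G (G.op p)) = -κ (Lf G p) + 1 := by
    intro p hp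
    rw [← corner_N hp, hκ p]
    ring
  have hsc : ∀ e, -κ (Lf G (sc G.nxt G.op e)) = -κ (Lf G e) := by
    intro e
    unfold sc
    by_cases h : G.lf (G.op (G.nxt e)) = true
    · have h1 := corner_W h (ho _)
      rw [G.op_op, Equiv.symm_apply_apply] at h1
      rw [h1]
    · have h2 : G.lf (G.nxt e) = true := by
        rw [hlf] at h
        simpa using h
      have h1 := corner_E h2 (ho _)
      rw [Equiv.symm_apply_apply] at h1
      rw [hκ, hκ, h1]
  obtain ⟨τ', H', Bs, b1, b2, b3⟩ := exists_SB H hlf (Sp := spc G C)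
    (fun p hp => (Finset.mem_filter.1 hp).2.1) hreg (fun e => -κ (Lf G e)) hsc hop
  refine ⟨C, τ', H', Bs, hC, hScard, b2.trans ?_, b1, b3⟩
  exact Nat.mul_le_mul (Nat.mul_le_mul_left 2 (Nat.succ_le_succ hScard)) hC

end shadow

end Pool.Agent.Helper41.PD
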