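import Pool.Agent.Helper41.PD.Adapt
import Pool.Agent.Helper29.PD.H3Cut

/-!
# EV3, block (5): the boxes in the form of blocks (6) and (7)
-/

set_option autoImplicit false

namespace Pool.Agent.Helper41.PD

open Pool.Agent.Helper85.Exp Pool.Agent.Helper29.PD

variable {P : Type} {G : Sh P} {C : Finset P} {τ : P → ℕ} {H : Cut G.nxt G.op C τ}
    {Sp : Finset P} {Bs : List (List P × List (P × ℕ))}

theorem SB.bxs (h : SB H G.lf Sp Bs) : Bxs H Bs where
  nd := h.nd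
  mem := h.mem
  let_ := h.let_
  all := h.all
  ord := h.ord

theorem SB.use (h : SB H G.lf Sp Bs) : ∀ b ∈ Bs, ∀ k, k + 1 < b.1.length → ∃ q ∈ b.2, q.2 = k :=
  h.ex

theorem SB.sp (h : SB H G.lf Sp Bs) : ∀ b ∈ Bs, ∀ q ∈ b.2, q.1 ∈ Sp → b.2 = [q] := by
  intro b hb q hq hS
  rcases h.spec b hb with h1 | ⟨p, -, k, h1⟩
  · exact absurd hS (h1 q hq)
  · rw [h1] at hq ⊢
    rw [List.mem_singleton] at hq
    rw [hq]

end Pool.Agent.Helper41.PD
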