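import Pool.Agent.Helper41.PD.Boxes

/-!
# EV3, block (5): the current edges and the faces between them

`st lab op X`: for every label the current edge of its strand after the crossings of the list `X`.
-/

set_option autoImplicit false

namespace Pool.Agent.Helper41.PD

variable {P : Type} {nxt : Equiv.Perm P} {op : P → P} {C : Finset P} {τ : P → ℕ}

open Classical in
/-- the crossing `p` is passed -/
noncomputable def stp (lab op : P → P) (cur : P → P) (p : P) : P → P :=
  Function.update (Function.update cur (lab p) p) (lab (op p)) (op p)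

/-- the current edges after the crossings of the list `X` -/
noncomputable def st (lab op : P → P) (X : List P) : P → P := X.foldl (stp lab op) id

theorem st_nil (lab op : P → P) (l : P) : st lab op [] l = l := rfl

theorem st_snoc (lab op : P → P) (X : List P) (p : P) :
    st lab op (X ++ [p]) = stp lab op (st lab op X) p := by
  unfold st
  rw [List.foldl_append]
  rfl

theorem stp_right (lab op : P → P) (cur : P → P) (p : P) : stp lab op cur p (lab (op p)) = op p := by
  classical
  unfold stp
  exact Function.update_self _ _ _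

theorem stp_left (lab op : P → P) (cur : P → P) (p : P) (h : lab p ≠ lab (op p)) :
    stp lab op cur p (lab p) = p := by
  classical
  unfold stp
  rw [Function.update_of_ne h, Function.update_self]

theorem stp_of_ne (lab op : P → P) (cur : P → P) (p l : P) (h1 : l ≠ lab p)
    (h2 : l ≠ lab (op p)) : stp lab op cur p l = cur l := by
  classical
  unfold stp
  rw [Function.update_of_ne h2, Function.update_of_ne h1]

theorem Cut.st_spec (H : Cut nxt op C τ) (X : List P) (hX : X.Pairwise fun a b => τ a < τ b)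
    (hne : ∀ p ∈ X, H.lab p ≠ H.lab (op p)) (l : P) :
    ((∀ e, (e ∈ X ∨ op e ∈ X) → H.lab e ≠ l) ∧ st H.lab op X l = l) ∨
      ∃ e, (e ∈ X ∨ op e ∈ X) ∧ H.lab e = l ∧ st H.lab op X l = e ∧
        ∀ e', (e' ∈ X ∨ op e' ∈ X) → H.lab e' = l → τ e' ≤ τ e := by
  induction X using List.reverseRecOn with
  | nil =>
    left
    exact ⟨fun e he => by simp at he, rfl⟩
  | append_singleton X p ih =>
    rw [List.pairwise_append] at hX
    obtain ⟨hX1, -, hX3⟩ := hX
    have hX3' : ∀ x ∈ X, τ x < τ p := fun x hx => hX3 x hx p (by simp)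
    have hmem : ∀ e, (e ∈ X ++ [p] ∨ op e ∈ X ++ [p]) ↔
        ((e ∈ X ∨ op e ∈ X) ∨ (e = p ∨ e = op p)) := by
      intro e
      simp only [List.mem_append, List.mem_singleton]
      have h1 : op e = p ↔ e = op p := by
        constructor
        · intro h
          rw [← h, H.op_op]
        · intro h
          rw [h, H.op_op]
      rw [h1]
      tauto
    have hlt : ∀ e, (e ∈ X ∨ op e ∈ X) → τ e < τ p := by
      rintro e (he | he)
      · exact hX3' e he
      · rw [← H.τ_op e]
        exact hX3' _ he
    have hle : ∀ e, (e ∈ X ++ [p] ∨ op e ∈ X ++ [p]) → τ e ≤ τ p := by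
      intro e he
      rcases (hmem e).1 he with h | h | h
      · exact (hlt e h).le
      · rw [h]
      · rw [h, H.τ_op]
    have hpp := hne p (by simp)
    rw [st_snoc]
    by_cases h2 : l = H.lab (op p)
    · right
      refine ⟨op p, (hmem _).2 (Or.inr (Or.inr rfl)), h2.symm, by rw [h2, stp_right], ?_⟩
      intro e' he' _
      rw [H.τ_op]
      exact hle e' he'
    by_cases h1 : l = H.lab p
    · right
      refine ⟨p, (hmem _).2 (Or.inr (Or.inl rfl)), h1.symm, by rw [h1, stp_left _ _ _ _ hpp], ?_⟩
      intro e' he' _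
      exact hle e' he'
    rw [stp_of_ne _ _ _ _ _ h1 h2]
    rcases ih hX1 fun q hq => hne q (by simp [hq]) with ⟨i1, i2⟩ | ⟨e, i1, i2, i3, i4⟩
    · left
      refine ⟨fun e he => ?_, i2⟩
      rcases (hmem e).1 he with h | h | h
      · exact i1 e h
      · rw [h]
        exact fun h' => h1 h'.symm
      · rw [h]
        exact fun h' => h2 h'.symm
    · right
      refine ⟨e, (hmem e).2 (Or.inl i1), i2, i3, fun e' he' hl => ?_⟩
      rcases (hmem e').1 he' with h | h | h
      · exact i4 e' h hl
      · rw [h] at hl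
        exact absurd hl.symm h1
      · rw [h] at hl
        exact absurd hl.symm h2

theorem Cut.mem_left (H : Cut nxt op C τ) {X1 X2 : List P} {p x : P}
    (hX : (X1 ++ p :: X2).Pairwise fun a b => τ a < τ b) (hx : x ∈ X1 ++ p :: X2)
    (h : τ x < τ p) : x ∈ X1 := by
  rw [List.pairwise_append, List.pairwise_cons] at hX
  rw [List.mem_append, List.mem_cons] at hx
  rcases hx with hx | hx | hx
  · exact hx
  · rw [hx] at h
    exact absurd h (lt_irrefl _)
  · exact absurd (hX.2.1.1 x hx) (by omega)

/-- before its crossing, a strand is at the in-edge -/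
theorem Cut.st_before (H : Cut nxt op C τ) {lf : P → Bool} (hlf : ∀ p, lf (op p) = !lf p)
    {X1 X2 : List P} {p : P} (hX : (X1 ++ p :: X2).Pairwise fun a b => τ a < τ b)
    (hall : ∀ q, lf q = true → q ∈ X1 ++ p :: X2)
    (hne : ∀ p ∈ X1 ++ p :: X2, H.lab p ≠ H.lab (op p)) {f : P} (hf : f = p ∨ f = op p) :
    st H.lab op X1 (H.lab f) = pr nxt op f := by
  have hτf : τ f = τ p := by
    rcases hf with h | h
    · rw [h]
    · rw [h, H.τ_op]
  have hX1 : X1.Pairwise fun a b => τ a < τ b := (List.pairwise_append.1 hX).1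
  have hpast : ∀ g, τ g < τ p → (g ∈ X1 ∨ op g ∈ X1) := by
    intro g hg
    cases h : lf g with
    | true => exact Or.inl (H.mem_left hX (hall g h) hg)
    | false =>
      exact Or.inr (H.mem_left hX (hall (op g) (by rw [hlf, h]; rfl)) (by rwa [H.τ_op]))
  have hpast2 : ∀ g, (g ∈ X1 ∨ op g ∈ X1) → τ g < τ p := by
    have h1 := (List.pairwise_append.1 hX).2.2
    rintro g (hg | hg)
    · exact h1 g hg p (by simp)
    · rw [← H.τ_op g]
      exact h1 _ hg p (by simp)
  have hscpr := H.sc_pr f
  rcases H.st_spec X1 hX1 (fun q hq => hne q (by simp [hq])) (H.lab f) with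
    ⟨i1, i2⟩ | ⟨e, i1, i2, i3, i4⟩
  · rw [i2]
    by_cases h : pr nxt op f ∈ C
    · have h1 := H.lab_sc_mem h
      rwa [hscpr] at h1
    · exfalso
      have h1 := H.lab_sc h
      rw [hscpr] at h1
      have h2 := H.τ_pr h
      exact i1 _ (hpast _ (by omega)) h1.symm
  · rw [i3]
    have h1 := hpast2 e i1
    have h2 : H.dep e < H.dep f := H.dep_lt i2 (by omega)
    have h3 : pr nxt op f ∉ C := by
      intro h
      have h4 := H.dep_sc_mem h
      rw [hscpr] at h4
      omega
    have h4 := H.lab_sc h3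
    have h5 := H.dep_sc h3
    rw [hscpr] at h4 h5
    have h6 := i4 (pr nxt op f) (hpast _ (by have := H.τ_pr h3; omega)) h4.symm
    refine H.eq_of_dep (i2.trans h4) ?_
    rcases Nat.lt_or_ge (H.dep e) (H.dep (pr nxt op f)) with h7 | h7
    · exact absurd (H.τ_lt (i2.trans h4) h7) (by omega)
    · omega

/-- after all crossings, a strand is at its cut edge -/
theorem Cut.st_end (H : Cut nxt op C τ) {lf : P → Bool} (hlf : ∀ p, lf (op p) = !lf p)
    {X : List P} (hX : X.Pairwise fun a b => τ a < τ b)
    (hall : ∀ q, lf q = true → q ∈ X) (hne : ∀ p ∈ X, H.lab p ≠ H.lab (op p)) {c : P}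
    (hc : c ∈ C) : st H.lab op X (H.lab c) = c := by
  have hm : ∀ g, g ∈ X ∨ op g ∈ X := by
    intro g
    cases h : lf g with
    | true => exact Or.inl (hall g h)
    | false => exact Or.inr (hall (op g) (by rw [hlf, h]; rfl))
  rcases H.st_spec X hX hne (H.lab c) with ⟨i1, i2⟩ | ⟨e, i1, i2, i3, i4⟩
  · exact absurd rfl (i1 c (hm c))
  · rw [i3]
    have h1 := H.last hc i2
    have h2 := i4 c (hm c) rfl
    rcases Nat.lt_or_eq_of_le h1 with h3 | h3
    · exact absurd (H.τ_lt i2 h3) (by omega)
    · exact H.eq_of_dep i2 h3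

theorem Cut.lab_inj (H : Cut nxt op C τ) {c d : P} (hc : c ∈ C) (hd : d ∈ C)
    (h : H.lab c = H.lab d) : c = d :=
  H.eq_of_dep h (le_antisymm (H.last hd h) (H.last hc h.symm))

/-- the faces at a crossing; edge `e` = the edge out of the passage `e`, `L e`, `R e` its left
and right face -/
structure Corn {F : Type} (nxt : Equiv.Perm P) (op : P → P) (lf : P → Bool) (L R : P → F) :
    Prop where
  W : ∀ p, lf p = true → L p = L (pr nxt op p)
  E : ∀ p, lf p = true → R (op p) = R (pr nxt op (op p))
  S : ∀ p, lf p = true → R (pr nxt op p) = L (pr nxt op (op p))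
  N : ∀ p, lf p = true → R p = L (op p)

theorem IsBox.idx {H : Cut nxt op C τ} {Sp : Finset P} {B : List P × List P}
    (hB : IsBox H Sp B) {p : P} (hp : p ∈ B.2) {k : ℕ} (hk : k + 1 < B.1.length) :
    B.1[k] = H.lab p ↔ B.1[k + 1] = H.lab (op p) := by
  obtain ⟨j, hj, h1, h2⟩ := hB.letter p hp
  constructor
  · intro h
    rw [← h1] at h
    have := (List.Nodup.getElem_inj_iff hB.nodup).1 h
    subst this
    exact h2
  · intro h
    rw [← h2] at h
    have := (List.Nodup.getElem_inj_iff hB.nodup).1 h
    have h3 : k = j := by omega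
    subst h3
    exact h1

/-- inside a box neighbours in the chain have a common face, at all times -/
theorem Cut.junction (H : Cut nxt op C τ) {lf : P → Bool} (hlf : ∀ p, lf (op p) = !lf p)
    {F : Type} {L R : P → F} (hc : Corn nxt op lf L R) {Sp : Finset P} {B : List P × List P}
    (hB : IsBox H Sp B) {U V : List P}
    (hX : (U ++ B.2 ++ V).Pairwise fun a b => τ a < τ b)
    (hall : ∀ q, q ∈ U ++ B.2 ++ V ↔ lf q = true) (hne : ∀ p, H.lab p ≠ H.lab (op p))
    {k : ℕ} (hk : k + 1 < B.1.length) (n : ℕ) (hn : n ≤ B.2.length) :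
    R (st H.lab op (U ++ B.2.take n) B.1[k]) = L (st H.lab op (U ++ B.2.take n) B.1[k + 1]) := by
  have split : ∀ n (hn : n < B.2.length),
      U ++ B.2 ++ V = (U ++ B.2.take n) ++ B.2[n] :: (B.2.drop (n + 1) ++ V) := by
    intro n hn
    have e : B.2 = B.2.take n ++ B.2[n] :: B.2.drop (n + 1) := by
      rw [← List.drop_eq_getElem_cons hn, List.take_append_drop]
    refine (congrArg (fun l => U ++ l ++ V) e).trans ?_
    simp only [List.append_assoc, List.cons_append]
  have key : ∀ n (hn : n < B.2.length),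
      ((B.1[k] = H.lab B.2[n]) →
        R (st H.lab op (U ++ B.2.take n) B.1[k]) =
          L (st H.lab op (U ++ B.2.take n) B.1[k + 1])) ∧
      (R (st H.lab op (U ++ B.2.take n) B.1[k]) =
          L (st H.lab op (U ++ B.2.take n) B.1[k + 1]) ↔
        R (st H.lab op (U ++ B.2.take (n + 1)) B.1[k]) =
          L (st H.lab op (U ++ B.2.take (n + 1)) B.1[k + 1])) := by
    intro n hn
    have hpB : B.2[n] ∈ B.2 := List.getElem_mem hn
    have hs := split n hn
    have hp : lf B.2[n] = true := (hall _).1 (by simp [hpB])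
    have hall' : ∀ q, lf q = true → q ∈ (U ++ B.2.take n) ++ B.2[n] :: (B.2.drop (n + 1) ++ V) :=
      fun q hq => hs ▸ (hall q).2 hq
    have b1 := H.st_before hlf (p := B.2[n]) (hs ▸ hX) hall' (fun q _ => hne q) (f := B.2[n])
      (Or.inl rfl)
    have b2 := H.st_before hlf (p := B.2[n]) (hs ▸ hX) hall' (fun q _ => hne q)
      (f := op B.2[n]) (Or.inr rfl)
    have hidx := hB.idx hpB hk
    have htake : U ++ B.2.take (n + 1) = (U ++ B.2.take n) ++ [B.2[n]] := by
      rw [List.take_succ_eq_append_getElem hn]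
      simp
    rw [htake, st_snoc]
    generalize st H.lab op (U ++ B.2.take n) = cur at b1 b2 ⊢
    generalize B.2[n] = p at *
    by_cases h1 : B.1[k] = H.lab p
    · have h2 := hidx.1 h1
      have e1 : R (cur B.1[k]) = L (cur B.1[k + 1]) := by
        rw [h1, h2, b1, b2]
        exact hc.S p hp
      refine ⟨fun _ => e1, iff_of_true e1 ?_⟩
      rw [h1, h2, stp_right, stp_left _ _ _ _ (hne p)]
      exact hc.N p hp
    · have h2 : B.1[k + 1] ≠ H.lab (op p) := fun h => h1 (hidx.2 h)
      refine ⟨fun h => absurd h h1, ?_⟩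
      have e1 : R (stp H.lab op cur p B.1[k]) = R (cur B.1[k]) := by
        by_cases h3 : B.1[k] = H.lab (op p)
        · rw [h3, stp_right, b2]
          exact hc.E p hp
        · rw [stp_of_ne _ _ _ _ _ h1 h3]
      have e2 : L (stp H.lab op cur p B.1[k + 1]) = L (cur B.1[k + 1]) := by
        by_cases h3 : B.1[k + 1] = H.lab p
        · rw [h3, stp_left _ _ _ _ (hne p), b1]
          exact hc.W p hp
        · rw [stp_of_ne _ _ _ _ _ h3 h2]
      rw [e1, e2]
  obtain ⟨p, hp, hp1, -⟩ := hB.ex k hk
  obtain ⟨i, hi, rfl⟩ := List.getElem_of_mem hp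
  have h0 := (key i hi).1 hp1
  have all : ∀ n, n ≤ B.2.length → (R (st H.lab op (U ++ B.2.take n) B.1[k]) =
      L (st H.lab op (U ++ B.2.take n) B.1[k + 1]) ↔
      R (st H.lab op (U ++ B.2.take 0) B.1[k]) =
      L (st H.lab op (U ++ B.2.take 0) B.1[k + 1])) := by
    intro n
    induction n with
    | zero => exact fun _ => Iff.rfl
    | succ n ih =>
      intro hn
      exact ((key n (by omega)).2.symm).trans (ih (by omega))
  exact (all n hn).2 ((all i hi.le).1 h0)

end Pool.Agent.Helper41.PD
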