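import Pool.Agent.Helper41.PD.Adapt
import Pool.Agent.Helper41.PD.State

/-!
# EV3, block (5): the boxes of a shadow and the states
-/

set_option autoImplicit false

namespace Pool.Agent.Helper41.PD

section

variable {P : Type} {nxt : Equiv.Perm P} {op : P → P} {C : Finset P} {τ : P → ℕ}

/-- A box of `SB` is a box in the sense of `IsBox`. -/
theorem SB.isBox {H : Cut nxt op C τ} {lf : P → Bool} {Sp : Finset P}
    {Bs : List (List P × List (P × ℕ))} (h : SB H lf Sp Bs) {b : List P × List (P × ℕ)}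
    (hb : b ∈ Bs) : IsBox H Sp (b.1, b.2.map Prod.fst) where
  nodup := h.nd b hb
  mem := h.mem b hb
  letter p hp := by
    simp only [List.mem_map] at hp
    obtain ⟨c, hc, rfl⟩ := hp
    obtain ⟨h1, h2⟩ := h.let_ b hb c hc
    obtain ⟨g1, e1⟩ := List.getElem?_eq_some_iff.1 h1
    obtain ⟨g2, e2⟩ := List.getElem?_eq_some_iff.1 h2
    exact ⟨c.2, g2, e1, e2⟩
  ex k hk := by
    obtain ⟨c, hc, rfl⟩ := h.ex b hb k hk
    obtain ⟨h1, h2⟩ := h.let_ b hb c hc
    obtain ⟨g1, e1⟩ := List.getElem?_eq_some_iff.1 h1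
    obtain ⟨g2, e2⟩ := List.getElem?_eq_some_iff.1 h2
    exact ⟨c.1, List.mem_map.2 ⟨c, hc, rfl⟩, e1, e2⟩
  spec := by
    rcases h.spec b hb with h1 | ⟨p, hp, k, h1⟩
    · left
      intro p hp
      rw [List.mem_map] at hp
      obtain ⟨c, hc, rfl⟩ := hp
      exact h1 c hc
    · right
      exact ⟨p, hp, by simp [h1]⟩

/-- neighbours have different labels -/
theorem SB.lab_ne {H : Cut nxt op C τ} {lf : P → Bool} (hlf : ∀ p, lf (op p) = !lf p)
    {Sp : Finset P} {Bs : List (List P × List (P × ℕ))} (h : SB H lf Sp Bs) (p : P) :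
    H.lab p ≠ H.lab (op p) := by
  have key : ∀ p, lf p = true → H.lab p ≠ H.lab (op p) := by
    intro p hp
    have h1 := (h.all p).2 hp
    rw [List.mem_flatMap] at h1
    obtain ⟨b, hb, h2⟩ := h1
    obtain ⟨k, hk, h3, h4⟩ := (h.isBox hb).letter p h2
    rw [← h3, ← h4]
    intro he
    have := (List.Nodup.getElem_inj_iff (h.nd b hb)).1 he
    omega
  cases hp : lf p with
  | true => exact key p hp
  | false =>
    have h1 := key (op p) (by rw [hlf, hp]; rfl)
    rw [H.op_op] at h1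
    exact h1.symm

end

section shadow

open Pool.Agent.Helper85.Exp Pool.Agent.Helper2.PD

theorem corn_of {P : Type} {G : Sh P} (ho : ∀ i, G.op i ≠ i) :
    Corn G.nxt G.op G.lf (Lf G) (Rf G) where
  W p hp := corner_W hp (ho p)
  E p hp := by
    unfold pr
    rw [G.op_op]
    exact (corner_E hp (ho p)).symm
  S p hp := by
    unfold pr
    rw [G.op_op]
    exact (corner_S hp).symm
  N p hp := corner_N hp

variable {P : Type} {G : Sh P} {C : Finset P} {τ : P → ℕ}

/-- neighbours in a box have a common face, at all times of the box -/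
theorem SB.junction {H : Cut G.nxt G.op C τ} (ho : ∀ i, G.op i ≠ i) {Sp : Finset P}
    {Bs : List (List P × List (P × ℕ))} (h : SB H G.lf Sp Bs)
    {B1 B2 : List (List P × List (P × ℕ))} {b : List P × List (P × ℕ)} (hs : Bs = B1 ++ b :: B2)
    {k : ℕ} (hk : k + 1 < b.1.length) (n : ℕ) (hn : n ≤ b.2.length) :
    Rf G (st H.lab G.op ((B1.flatMap fun b => b.2.map Prod.fst) ++ (b.2.take n).map Prod.fst)
      b.1[k]) =
    Lf G (st H.lab G.op ((B1.flatMap fun b => b.2.map Prod.fst) ++ (b.2.take n).map Prod.fst)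
      b.1[k + 1]) := by
  have hlf : ∀ p, G.lf (G.op p) = !G.lf p := fun p => G.lf_op p (ho p)
  have e : (Bs.flatMap fun b => b.2.map Prod.fst) = (B1.flatMap fun b => b.2.map Prod.fst) ++
      (b.2.map Prod.fst) ++ (B2.flatMap fun b => b.2.map Prod.fst) := by
    rw [hs]
    simp
  have h1 := H.junction hlf (corn_of ho) (h.isBox (b := b) (by rw [hs]; simp))
    (U := B1.flatMap fun b => b.2.map Prod.fst) (V := B2.flatMap fun b => b.2.map Prod.fst)
    (e ▸ h.srt) (fun q => by rw [← h.all q, e]) (h.lab_ne hlf) (k := k) hk n (by simpa using hn)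
  simpa using h1

/-- before its crossing, a strand is at the in-edge -/
theorem SB.before {H : Cut G.nxt G.op C τ} (ho : ∀ i, G.op i ≠ i) {Sp : Finset P}
    {Bs : List (List P × List (P × ℕ))} (h : SB H G.lf Sp Bs) {U V : List P} {p : P}
    (e : (Bs.flatMap fun b => b.2.map Prod.fst) = U ++ p :: V) :
    st H.lab G.op U (H.lab p) = G.nxt.symm (G.op p) ∧
      st H.lab G.op U (H.lab (G.op p)) = G.nxt.symm p := by
  have hlf : ∀ p, G.lf (G.op p) = !G.lf p := fun p => G.lf_op p (ho p)
  have hall : ∀ q, G.lf q = true → q ∈ U ++ p :: V := fun q hq => e ▸ (h.all q).2 hq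
  have h1 := H.st_before hlf (p := p) (e ▸ h.srt) hall (fun q _ => h.lab_ne hlf q) (f := p)
    (Or.inl rfl)
  have h2 := H.st_before hlf (p := p) (e ▸ h.srt) hall (fun q _ => h.lab_ne hlf q) (f := G.op p)
    (Or.inr rfl)
  refine ⟨h1, ?_⟩
  rw [h2]
  unfold pr
  rw [G.op_op]

/-- after all crossings, a strand is at its cut edge -/
theorem SB.fin {H : Cut G.nxt G.op C τ} (ho : ∀ i, G.op i ≠ i) {Sp : Finset P}
    {Bs : List (List P × List (P × ℕ))} (h : SB H G.lf Sp Bs) {c : P} (hc : c ∈ C) :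
    st H.lab G.op (Bs.flatMap fun b => b.2.map Prod.fst) (H.lab c) = c :=
  H.st_end (fun p => G.lf_op p (ho p)) h.srt (fun q hq => (h.all q).2 hq)
    (fun q _ => h.lab_ne (fun p => G.lf_op p (ho p)) q) hc

end shadow

end Pool.Agent.Helper41.PD
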