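import Mathlib

/-!
# EV3, block (5): chains of a partial bijection

A relation `R` which is a partial bijection and raises a height by one consists of chains.
-/

set_option autoImplicit false

namespace Pool.Agent.Helper41.PD

variable {α : Type}

open Classical in
/-- the chain which starts at `x` (at most `n` steps) -/
noncomputable def chainF (R : α → α → Prop) : ℕ → α → List α
  | 0, x => [x]
  | n + 1, x => if h : ∃ y, R x y then x :: chainF R n (Classical.choose h) else [x]

theorem chainF_get (R : α → α → Prop) (n : ℕ) (x : α) :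
    ∃ h : 0 < (chainF R n x).length, (chainF R n x)[0] = x := by
  cases n with
  | zero => exact ⟨by simp [chainF], by simp [chainF]⟩
  | succ n =>
    by_cases h : ∃ y, R x y
    · exact ⟨by simp [chainF, h], by simp [chainF, h]⟩
    · exact ⟨by simp [chainF, h], by simp [chainF, h]⟩

theorem chainF_chain (R : α → α → Prop) (n : ℕ) (x : α) (k : ℕ)
    (hk : k + 1 < (chainF R n x).length) : R (chainF R n x)[k] (chainF R n x)[k + 1] := by
  induction n generalizing x k with
  | zero => simp [chainF] at hk
  | succ n ih =>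
    by_cases h : ∃ y, R x y
    · have e : chainF R (n + 1) x = x :: chainF R n (Classical.choose h) := by
        rw [chainF, dif_pos h]
      simp only [e] at hk ⊢
      cases k with
      | zero =>
        obtain ⟨h1, h2⟩ := chainF_get R n (Classical.choose h)
        simp only [List.getElem_cons_zero, zero_add, List.getElem_cons_succ, h2]
        exact Classical.choose_spec h
      | succ k =>
        simp only [List.getElem_cons_succ]
        exact ih _ k (by simpa using hk)
    · have e : chainF R (n + 1) x = [x] := by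
        rw [chainF, dif_neg h]
      rw [e] at hk
      simp at hk

theorem chainF_ht {R : α → α → Prop} {ht : α → ℕ} (hh : ∀ x y, R x y → ht y = ht x + 1)
    (n : ℕ) (x : α) (k : ℕ) (hk : k < (chainF R n x).length) :
    ht (chainF R n x)[k] = ht x + k := by
  induction k with
  | zero =>
    obtain ⟨h1, h2⟩ := chainF_get R n x
    rw [h2]
    rfl
  | succ k ih =>
    rw [hh _ _ (chainF_chain R n x k hk), ih (by omega)]
    omega

theorem chainF_nodup {R : α → α → Prop} {ht : α → ℕ} (hh : ∀ x y, R x y → ht y = ht x + 1)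
    (n : ℕ) (x : α) : (chainF R n x).Nodup := by
  rw [List.Nodup, List.pairwise_iff_getElem]
  intro i j hi hj hij h
  have h1 := chainF_ht hh n x i hi
  have h2 := chainF_ht hh n x j hj
  rw [h] at h1
  omega

theorem chainF_next {R : α → α → Prop} {ht : α → ℕ} (hh : ∀ x y, R x y → ht y = ht x + 1)
    (hf : ∀ x y z, R x y → R x z → y = z) {M : ℕ} (hM : ∀ x y, R x y → ht y ≤ M)
    (n : ℕ) (x : α) (hn : M ≤ ht x + n) (k : ℕ) (hk : k < (chainF R n x).length) (z : α)
    (hz : R (chainF R n x)[k] z) :
    ∃ hk' : k + 1 < (chainF R n x).length, (chainF R n x)[k + 1] = z := by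
  induction n generalizing x k with
  | zero =>
    exfalso
    have hk0 : k = 0 := by
      simp [chainF] at hk
      exact hk
    subst hk0
    have e1 := chainF_ht hh 0 x 0 hk
    have e2 := hh _ _ hz
    have e3 := hM _ _ hz
    omega
  | succ n ih =>
    by_cases h : ∃ y, R x y
    · have e : chainF R (n + 1) x = x :: chainF R n (Classical.choose h) := by
        rw [chainF, dif_pos h]
      simp only [e] at hk hz ⊢
      have hR := Classical.choose_spec h
      cases k with
      | zero =>
        simp only [List.getElem_cons_zero] at hz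
        obtain ⟨h1, h2⟩ := chainF_get R n (Classical.choose h)
        refine ⟨by simpa using h1, ?_⟩
        simp only [zero_add, List.getElem_cons_succ, h2]
        exact hf _ _ _ hR hz
      | succ k =>
        simp only [List.getElem_cons_succ] at hz ⊢
        obtain ⟨h1, h2⟩ := ih (Classical.choose h) (by
          have := hh _ _ hR
          omega) k (by simpa using hk) hz
        exact ⟨by simpa using h1, h2⟩
    · exfalso
      have e : chainF R (n + 1) x = [x] := by
        rw [chainF, dif_neg h]
      have hk0 : k = 0 := by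
        rw [e] at hk
        simpa using hk
      subst hk0
      obtain ⟨h1, h2⟩ := chainF_get R (n + 1) x
      rw [h2] at hz
      exact h ⟨z, hz⟩

theorem chainF_trans {R : α → α → Prop} (n : ℕ) (x : α) (k : ℕ)
    (hk : k < (chainF R n x).length) : Relation.ReflTransGen R x (chainF R n x)[k] := by
  induction k with
  | zero =>
    obtain ⟨h1, h2⟩ := chainF_get R n x
    rw [h2]
  | succ k ih => exact (ih (by omega)).tail (chainF_chain R n x k hk)

theorem ex_top {R : α → α → Prop} {ht : α → ℕ} (hh : ∀ x y, R x y → ht y = ht x + 1) (y : α) :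
    ∃ t, (¬ ∃ x, R x t) ∧ Relation.ReflTransGen R t y := by
  induction hn : ht y using Nat.strong_induction_on generalizing y with
  | _ n ih =>
    by_cases h : ∃ x, R x y
    · obtain ⟨x, hx⟩ := h
      obtain ⟨t, h1, h2⟩ := ih (ht x) (by have := hh _ _ hx; omega) x rfl
      exact ⟨t, h1, h2.tail hx⟩
    · exact ⟨y, h, Relation.ReflTransGen.refl⟩

theorem top_unique {R : α → α → Prop} (hi : ∀ x y z, R x z → R y z → x = y) {t t' y : α}
    (ht : ¬ ∃ x, R x t) (ht' : ¬ ∃ x, R x t') (h : Relation.ReflTransGen R t y)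
    (h' : Relation.ReflTransGen R t' y) : t = t' := by
  induction h with
  | refl =>
    rcases Relation.ReflTransGen.cases_tail h' with h1 | ⟨z, _, hz⟩
    · exact h1
    · exact absurd ⟨z, hz⟩ ht
  | tail h1 h2 ih =>
    rcases Relation.ReflTransGen.cases_tail h' with h3 | ⟨z, hz1, hz2⟩
    · exact absurd ⟨_, h3 ▸ h2⟩ ht'
    · rw [hi _ _ _ h2 hz2] at ih
      exact ih hz1

/-- the chains of a partial bijection on a finite set -/
theorem chains (C : Finset α) (R : α → α → Prop) (ht : α → ℕ)
    (hC : ∀ x y, R x y → x ∈ C ∧ y ∈ C) (hf : ∀ x y z, R x y → R x z → y = z)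
    (hi : ∀ x y z, R x z → R y z → x = y) (hh : ∀ x y, R x y → ht y = ht x + 1) :
    ∃ (cid : α → ℕ) (ch : ℕ → List α), (∀ x ∈ C, cid x < C.card) ∧ (∀ i, (ch i).Nodup) ∧
      (∀ i, ∀ x ∈ ch i, x ∈ C ∧ cid x = i) ∧
      (∀ i k (hk : k + 1 < (ch i).length), R (ch i)[k] (ch i)[k + 1]) ∧
      ∀ x y, R x y → cid x = cid y ∧
        ∃ k, ∃ hk : k + 1 < (ch (cid x)).length, (ch (cid x))[k] = x ∧ (ch (cid x))[k + 1] = y := by
  classical
  obtain ⟨M, hM⟩ : ∃ M : ℕ, ∀ x ∈ C, ht x ≤ M :=
    ⟨C.sup ht, fun x hx => Finset.le_sup hx⟩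
  have hM' : ∀ x y, R x y → ht y ≤ M := fun x y h => hM _ (hC x y h).2
  choose top htop1 htop2 using ex_top hh
  have hC2 : ∀ x y, Relation.ReflTransGen R x y → x ∈ C → y ∈ C := by
    intro x y h hx
    induction h with
    | refl => exact hx
    | tail _ h2 _ => exact (hC _ _ h2).2
  have hC3 : ∀ x y, Relation.ReflTransGen R x y → y ∈ C → x ∈ C := by
    intro x y h hx
    induction h with
    | refl => exact hx
    | tail _ h2 ih => exact ih (hC _ _ h2).1
  have htopC : ∀ x ∈ C, top x ∈ C := fun x hx => hC3 _ _ (htop2 x) hx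
  have htopR : ∀ x y, R x y → top x = top y := fun x y h =>
    top_unique hi (htop1 x) (htop1 y) ((htop2 x).tail h) (htop2 y)
  let L := C.toList
  let ch : ℕ → List α := fun i =>
    if h : i < L.length then (if ∃ x, R x L[i] then [] else chainF R M L[i]) else []
  have hch : ∀ i, ch i = [] ∨ ∃ h : i < L.length, (¬ ∃ x, R x L[i]) ∧ ch i = chainF R M L[i] := by
    intro i
    by_cases h : i < L.length
    · by_cases h2 : ∃ x, R x L[i]
      · left
        simp only [ch, dif_pos h, if_pos h2]
      · right
        exact ⟨h, h2, by simp only [ch, dif_pos h, if_neg h2]⟩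
    · left
      simp only [ch, dif_neg h]
  have hcid : ∀ x ∈ C, L.idxOf (top x) < L.length := fun x hx =>
    List.idxOf_lt_length_iff.2 (Finset.mem_toList.2 (htopC x hx))
  have hcid2 : ∀ x (hx : x ∈ C), L[L.idxOf (top x)]'(hcid x hx) = top x := fun x hx =>
    List.getElem_idxOf (hcid x hx)
  have hch2 : ∀ x ∈ C, ch (L.idxOf (top x)) = chainF R M (top x) := by
    intro x hx
    simp only [ch, dif_pos (hcid x hx), hcid2 x hx]
    rw [if_neg (htop1 x)]
  refine ⟨fun x => L.idxOf (top x), ch, ?_, ?_, ?_, ?_, ?_⟩
  · intro x hx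
    have := hcid x hx
    rwa [Finset.length_toList] at this
  · intro i
    rcases hch i with h | ⟨_, _, h⟩
    · rw [h]
      exact List.nodup_nil
    · rw [h]
      exact chainF_nodup hh _ _
  · intro i x hx
    rcases hch i with h | ⟨hi1, hi2, h⟩
    · rw [h] at hx
      simp at hx
    · rw [h] at hx
      obtain ⟨k, hk, rfl⟩ := List.getElem_of_mem hx
      have h1 := chainF_trans M L[i] k hk
      have h2 : L[i] ∈ C := Finset.mem_toList.1 (List.getElem_mem hi1)
      refine ⟨hC2 _ _ h1 h2, ?_⟩
      have h3 : top ((chainF R M L[i])[k]) = L[i] :=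
        top_unique hi (htop1 _) hi2 (htop2 _) h1
      simp only [h3]
      exact List.Nodup.idxOf_getElem (Finset.nodup_toList C) i hi1
  · intro i k hk
    rcases hch i with h | ⟨hi1, hi2, h⟩
    · rw [h] at hk
      simp at hk
    · simp only [h] at hk ⊢
      exact chainF_chain R _ _ k hk
  · intro x y hxy
    obtain ⟨hx, hy⟩ := hC _ _ hxy
    refine ⟨by simp only [htopR x y hxy], ?_⟩
    have key : ∀ z, Relation.ReflTransGen R (top x) z →
        ∃ k, ∃ hk : k < (chainF R M (top x)).length, (chainF R M (top x))[k] = z := by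
      intro z hz
      induction hz with
      | refl =>
        obtain ⟨h1, h2⟩ := chainF_get R M (top x)
        exact ⟨0, h1, h2⟩
      | tail _ h2 ih =>
        obtain ⟨k, hk, rfl⟩ := ih
        obtain ⟨h3, h4⟩ := chainF_next hh hf hM' M (top x) (by omega) k hk _ h2
        exact ⟨k + 1, h3, h4⟩
    obtain ⟨k, hk, hk2⟩ := key x (htop2 x)
    obtain ⟨h3, h4⟩ := chainF_next hh hf hM' M (top x) (by omega) k hk y (by rw [hk2]; exact hxy)
    simp only [hch2 x hx]
    exact ⟨k, h3, hk2, h4⟩

end Pool.Agent.Helper41.PD
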