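import Pool.Agent.Helper41.PD.Reg
import Pool.Agent.Helper41.PD.Chain

/-!
# EV3, block (5): boxes

The crossings of a cut shadow with few special crossings, in a new order compatible with all strands, are the
concatenation of few boxes: a box is a chain of labels together with crossings of neighbours in
the chain.
-/

set_option autoImplicit false

namespace Pool.Agent.Helper41.PD

variable {P : Type} {nxt : Equiv.Perm P} {op : P → P} {C : Finset P} {τ : P → ℕ}

theorem ex_sorted (S : Finset P) (κ : P → ℕ) (hκ : ∀ p ∈ S, ∀ q ∈ S, κ p = κ q → p = q) :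
    ∃ X : List P, (∀ p, p ∈ X ↔ p ∈ S) ∧ X.Pairwise fun a b => κ a < κ b := by
  classical
  revert hκ
  refine Finset.induction_on_max_value κ S ?_ ?_
  · intro _
    exact ⟨[], by simp, List.Pairwise.nil⟩
  · intro a s ha hmax ih hκ
    obtain ⟨X, h1, h2⟩ := ih fun p hp q hq => hκ p (Finset.mem_insert_of_mem hp) q
      (Finset.mem_insert_of_mem hq)
    refine ⟨X ++ [a], fun p => ?_, ?_⟩
    · rw [List.mem_append, List.mem_singleton, h1, Finset.mem_insert, or_comm]
    · rw [List.pairwise_append]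
      refine ⟨h2, List.pairwise_singleton _ _, fun x hx y hy => ?_⟩
      rw [List.mem_singleton] at hy
      subst hy
      have h3 := (h1 x).1 hx
      refine lt_of_le_of_ne (hmax x h3) fun h4 => ha ?_
      rw [← hκ x (Finset.mem_insert_of_mem h3) y (Finset.mem_insert_self _ _) h4]
      exact h3

theorem lex_lt {a b M x y : ℕ} (h : a < b) (hx : x < M) : a * M + x < b * M + y := by
  have h1 : (a + 1) * M ≤ b * M := Nat.mul_le_mul_right M h
  have h2 : (a + 1) * M = a * M + M := by ring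
  omega

/-- a box: a chain of labels, and the crossings in their order -/
structure IsBox (H : Cut nxt op C τ) (Sp : Finset P) (B : List P × List P) : Prop where
  nodup : B.1.Nodup
  mem : ∀ x ∈ B.1, x ∈ C
  letter : ∀ p ∈ B.2, ∃ k, ∃ hk : k + 1 < B.1.length, B.1[k] = H.lab p ∧
    B.1[k + 1] = H.lab (op p)
  ex : ∀ k (hk : k + 1 < B.1.length), ∃ p ∈ B.2, B.1[k] = H.lab p ∧ B.1[k + 1] = H.lab (op p)
  spec : (∀ p ∈ B.2, p ∉ Sp) ∨ ∃ p ∈ Sp, B.2 = [p]

theorem boxes [Fintype P] (H : Cut nxt op C τ) (hinj : ∀ p q, τ p = τ q → q = p ∨ q = op p)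
    {lf : P → Bool} (hlf : ∀ p, lf (op p) = !lf p) {Sp : Finset P}
    (hSp1 : ∀ p ∈ Sp, lf p = true)
    (hSp : ∀ p, lf p = true → p ∉ Sp → Reg nxt op C lf p) (ht : P → ℤ)
    (hsc : ∀ e, ht (sc nxt op e) = ht e) (hop : ∀ p, lf p = true → ht (op p) = ht p + 1) :
    ∃ (τ' : P → ℕ) (_ : Cut nxt op C τ') (Bs : List (List P × List P)),
      (∀ p q, τ' p = τ' q → q = p ∨ q = op p) ∧
      Bs.length = 2 * (Sp.card + 1) * C.card ∧
      (Bs.flatMap Prod.snd).Pairwise (fun a b => τ' a < τ' b) ∧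
      (∀ p, p ∈ Bs.flatMap Prod.snd ↔ lf p = true) ∧ ∀ B ∈ Bs, IsBox H Sp B := by
  classical
  have hlab : ∀ f, ht (H.lab f) = ht f := by
    intro f
    have h1 : ∀ (n : ℕ) g, ht ((sc nxt op)^[n] g) = ht g := by
      intro n g
      induction n with
      | zero => rfl
      | succ n ih => rw [Function.iterate_succ_apply', hsc, ih]
    rw [← h1 (H.dep f + 1) (H.lab f), H.sc_iter_lab]
  obtain ⟨m, hm⟩ : ∃ m : ℤ, ∀ e, m ≤ ht e := by
    obtain ⟨m, hm⟩ := (Set.finite_range ht).bddBelow
    exact ⟨m, fun e => hm ⟨e, rfl⟩⟩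
  have hchain := fun σ => chains C (H.Nb lf Sp σ) (fun e => (ht e - m).toNat)
    (by
      rintro x y ⟨p, -, -, rfl, rfl⟩
      exact ⟨H.lab_mem _, H.lab_mem _⟩)
    (by
      rintro x y z ⟨p, p1, p2, p3, p4⟩ ⟨q, q1, q2, q3, q4⟩
      rw [← p4, ← q4]
      exact H.seg_right hinj hlf hSp p1 q1 (p2.trans q2.symm) (p3.trans q3.symm))
    (by
      rintro x y z ⟨p, p1, p2, p3, p4⟩ ⟨q, q1, q2, q3, q4⟩
      rw [← p3, ← q3]
      exact H.seg_left hinj hlf hSp p1 q1 (p2.trans q2.symm) (p4.trans q4.symm))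
    (by
      rintro x y ⟨p, p1, -, rfl, rfl⟩
      have h1 := hlab p
      have h2 := hlab (op p)
      have h3 := hop p p1
      have h4 := hm (H.lab p)
      omega)
  choose cid ch c1 c2 c3 c4 c5 using hchain
  obtain ⟨n, hn⟩ : ∃ n, n = C.card := ⟨_, rfl⟩
  obtain ⟨sg, hsg⟩ : ∃ sg : P → ℕ, ∀ p, sg p = seg τ op Sp p := ⟨_, fun _ => rfl⟩
  have sgop : ∀ p, sg (op p) = sg p := fun p => by rw [hsg, hsg, seg_op H]
  obtain ⟨blk, hblk⟩ : ∃ blk : P → ℕ, ∀ p, blk p = sg p * n + cid (sg p) (H.lab p) :=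
    ⟨_, fun _ => rfl⟩
  have hcid : ∀ σ p, cid σ (H.lab p) < n := fun σ p => hn ▸ c1 σ _ (H.lab_mem p)
  have hcop : ∀ p, cid (sg p) (H.lab (op p)) = cid (sg p) (H.lab p) := by
    intro p
    cases hp : lf p with
    | true => exact (c5 (sg p) _ _ ⟨p, hp, (hsg p).symm, rfl, rfl⟩).1.symm
    | false =>
      refine (c5 (sg p) _ _ ⟨op p, by rw [hlf, hp]; rfl, ?_, rfl, by rw [H.op_op]⟩).1
      rw [← hsg, sgop]
  have blkop : ∀ p, blk (op p) = blk p := fun p => by
    rw [hblk, hblk, sgop, hcop]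
  have blklt : ∀ p q, sg p < sg q → blk p < blk q := fun p q h => by
    rw [hblk, hblk]
    exact lex_lt h (hcid _ _)
  obtain ⟨M, hM⟩ : ∃ M : ℕ, ∀ p, τ p < M :=
    ⟨Finset.univ.sup τ + 1, fun p => Nat.lt_succ_of_le (Finset.le_sup (Finset.mem_univ p))⟩
  obtain ⟨τ', hτ'⟩ : ∃ τ' : P → ℕ, ∀ p, τ' p = blk p * M + τ p := ⟨_, fun _ => rfl⟩
  have lt1 : ∀ p q, blk p < blk q → τ' p < τ' q := fun p q h => by
    rw [hτ', hτ']
    exact lex_lt h (hM p)
  have lt2 : ∀ p q, blk p = blk q → τ p < τ q → τ' p < τ' q := fun p q h h2 => by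
    rw [hτ', hτ', h]
    omega
  have hinj' : ∀ p q, τ' p = τ' q → q = p ∨ q = op p := by
    intro p q h
    refine hinj p q ?_
    rcases Nat.lt_trichotomy (blk p) (blk q) with h1 | h1 | h1
    · exact absurd (lt1 _ _ h1) (by omega)
    · rw [hτ', hτ', h1] at h
      omega
    · exact absurd (lt1 _ _ h1) (by omega)
  have H' : Cut nxt op C τ' := by
    refine ⟨H.op_op, fun p => by rw [hτ', hτ', blkop, H.τ_op], fun e he => ?_⟩
    have h1 := H.mono e he
    have h2 := seg_mono H hinj Sp h1.le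
    rw [← hsg, ← hsg] at h2
    rcases Nat.lt_or_eq_of_le h2 with h3 | h3
    · exact lt1 _ _ (blklt _ _ h3)
    · refine lt2 _ _ ?_ h1
      rw [hblk, hblk, ← h3]
      congr 1
      have h4 := hcop (nxt e)
      rw [← h3] at h4
      rw [← h4]
      have h5 : H.lab (op (nxt e)) = H.lab e := H.lab_sc he
      rw [h5]
  have hinjS : ∀ p ∈ Finset.univ.filter (fun p => lf p = true),
      ∀ q ∈ Finset.univ.filter (fun p => lf p = true), τ' p = τ' q → p = q := by
    intro p hp q hq h
    rw [Finset.mem_filter] at hp hq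
    rcases hinj' p q h with h1 | h1
    · exact h1.symm
    · rw [h1, hlf, hp.2] at hq
      exact absurd hq.2 (by decide)
  obtain ⟨X, hX1, hX2⟩ := ex_sorted (Finset.univ.filter fun p => lf p = true) τ' hinjS
  have hX1' : ∀ p, p ∈ X ↔ lf p = true := fun p => by
    rw [hX1, Finset.mem_filter]
    simp
  obtain ⟨N, hN⟩ : ∃ N, N = 2 * (Sp.card + 1) * C.card := ⟨_, rfl⟩
  have blkN : ∀ p, blk p < N := by
    intro p
    rw [hblk, hN, ← hn, hsg]
    have h1 := seg_lt (τ := τ) (op := op) Sp p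
    have h2 : (seg τ op Sp p + 1) * n ≤ 2 * (Sp.card + 1) * n := Nat.mul_le_mul_right n h1
    have h3 := hcid (seg τ op Sp p) p
    have h4 : (seg τ op Sp p + 1) * n = seg τ op Sp p * n + n := by ring
    omega
  have hdiv : ∀ p, blk p / n = sg p ∧ blk p % n = cid (sg p) (H.lab p) := by
    intro p
    have h3 := hcid (sg p) p
    rw [hblk]
    constructor
    · rw [mul_comm, Nat.mul_add_div (by omega), Nat.div_eq_of_lt h3, add_zero]
    · rw [mul_comm, Nat.mul_add_mod, Nat.mod_eq_of_lt h3]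
  refine ⟨τ', H', (List.range N).map fun b => (ch (b / n) (b % n), X.filter fun p => blk p = b),
    hinj', by rw [List.length_map, List.length_range, hN], ?_, ?_, ?_⟩
  · rw [List.flatMap_map, List.pairwise_flatMap]
    refine ⟨fun b _ => hX2.filter _, ?_⟩
    refine List.pairwise_lt_range.imp ?_
    intro b c hbc x hx y hy
    simp only [List.mem_filter, decide_eq_true_eq] at hx hy
    exact lt1 _ _ (by omega)
  · intro p
    simp only [List.mem_flatMap, List.mem_map, List.mem_range]
    constructor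
    · rintro ⟨B, ⟨b, hb, rfl⟩, hp⟩
      exact (hX1' p).1 (List.mem_filter.1 hp).1
    · intro hp
      refine ⟨_, ⟨blk p, blkN p, rfl⟩, ?_⟩
      rw [List.mem_filter]
      exact ⟨(hX1' p).2 hp, by simp⟩
  · intro B hB
    rw [List.mem_map] at hB
    obtain ⟨b, -, rfl⟩ := hB
    refine ⟨c2 _ _, fun x hx => (c3 _ _ x hx).1, ?_, ?_, ?_⟩
    · intro p hp
      rw [List.mem_filter] at hp
      obtain ⟨hp1, hp2⟩ := hp
      have hp3 : blk p = b := by simpa using hp2
      obtain ⟨d1, d2⟩ := hdiv p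
      obtain ⟨k, hk, k1, k2⟩ := (c5 (sg p) _ _ ⟨p, (hX1' p).1 hp1, (hsg p).symm, rfl, rfl⟩).2
      rw [← hp3, d1, d2]
      exact ⟨k, hk, k1, k2⟩
    · intro k hk
      obtain ⟨p, p1, p2, p3, p4⟩ := c4 (b / n) (b % n) k hk
      refine ⟨p, ?_, p3.symm, p4.symm⟩
      have hk0 : k < (ch (b / n) (b % n)).length := Nat.lt_of_succ_lt hk
      have h1 := (c3 (b / n) (b % n) _ (List.getElem_mem hk0)).2
      rw [← p3, ← p2, ← hsg] at h1
      rw [List.mem_filter]
      refine ⟨(hX1' p).2 p1, ?_⟩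
      simp only [decide_eq_true_eq]
      rw [hblk, h1, hsg, p2, mul_comm]
      exact Nat.div_add_mod b n
    · by_cases hall : ∀ p ∈ X.filter (fun p => blk p = b), p ∉ Sp
      · exact Or.inl hall
      right
      push Not at hall
      obtain ⟨p, hp, hpS⟩ := hall
      refine ⟨p, hpS, ?_⟩
      have hall2 : ∀ q ∈ X.filter (fun p => blk p = b), q = p := by
        intro q hq
        rw [List.mem_filter] at hp hq
        have e1 : blk p = b := by simpa using hp.2
        have e2 : blk q = b := by simpa using hq.2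
        have e3 : seg τ op Sp p = seg τ op Sp q := by
          rw [← hsg, ← hsg, ← (hdiv p).1, ← (hdiv q).1, e1, e2]
        have hpl := (hX1' p).1 hp.1
        have hql := (hX1' q).1 hq.1
        rcases Nat.le_total (τ p) (τ q) with h1 | h1
        · rcases seg_eq H hinj Sp e3 h1 with (h2 | h2) | h2
          · exact h2
          · rw [h2, hlf, hpl] at hql
            exact absurd hql (by decide)
          · exact absurd ⟨le_rfl, by omega⟩ (h2 p hpS)
        · rcases seg_eq H hinj Sp e3.symm h1 with (h2 | h2) | h2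
          · exact h2.symm
          · rw [h2, hlf, hql] at hpl
            exact absurd hpl (by decide)
          · exact absurd ⟨h1, by omega⟩ (h2 p hpS)
      have hnd : (X.filter fun p => blk p = b).Nodup :=
        List.Nodup.filter _ (hX2.imp fun h => fun he => by rw [he] at h; exact lt_irrefl _ h)
      rcases hL : X.filter (fun p => blk p = b) with _ | ⟨x, _ | ⟨y, l⟩⟩
      · rw [hL] at hp
        simp at hp
      · rw [hL] at hall2
        have hh := hall2 x (by simp)
        simp only [hh]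
      · rw [hL] at hall2 hnd
        have h1 := hall2 x (by simp)
        have h2 := hall2 y (by simp)
        rw [h1, h2] at hnd
        simp at hnd

end Pool.Agent.Helper41.PD
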