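import Pool.Agent.Helper41.PD.Lab

/-!
# EV3, block (5): regular crossings

A crossing is the passage `p` with `lf p = true` (its out-edge is the left one), together with `op p`. `Reg p`: the next crossing
above `p` on the right side of its left strand is the next crossing on the left side of its right
strand, and no cut edge is between them.
-/

set_option autoImplicit false

namespace Pool.Agent.Helper41.PD

variable {P : Type} {nxt : Equiv.Perm P} {op : P → P} {C : Finset P} {τ : P → ℕ}

/-- regular crossing -/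
def Reg (nxt : Equiv.Perm P) (op : P → P) (C : Finset P) (lf : P → Bool) (p : P) : Prop :=
  ∃ m m' : ℕ, (∀ k ≤ m, (sc nxt op)^[k] p ∉ C) ∧ (∀ k ≤ m', (sc nxt op)^[k] (op p) ∉ C) ∧
    (∀ k < m, lf ((sc nxt op)^[k + 1] p) = false) ∧ lf ((sc nxt op)^[m + 1] p) = true ∧
    (∀ k < m', lf ((sc nxt op)^[k + 1] (op p)) = true) ∧
    (sc nxt op)^[m' + 1] (op p) = op ((sc nxt op)^[m + 1] p)

theorem Cut.reg_next (H : Cut nxt op C τ) {lf : P → Bool} {p : P}
    (h : Reg nxt op C lf p) : ∃ q, lf q = true ∧ H.lab q = H.lab p ∧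
      H.lab (op q) = H.lab (op p) ∧ τ p < τ q ∧
      (∀ r, H.lab r = H.lab p → lf r = true → H.dep p < H.dep r → H.dep q ≤ H.dep r) ∧
      (∀ r, H.lab r = H.lab (op p) → lf r = false → H.dep (op p) < H.dep r →
        H.dep (op q) ≤ H.dep r) := by
  obtain ⟨m, m', h1, h2, h3, h4, h5, h6⟩ := h
  obtain ⟨a1, a2⟩ := H.iter_lab_dep (f := p) (k := m + 1) fun i hi => h1 i (by omega)
  obtain ⟨b1, b2⟩ := H.iter_lab_dep (f := op p) (k := m' + 1) fun i hi => h2 i (by omega)
  rw [h6] at b1 b2
  refine ⟨(sc nxt op)^[m + 1] p, h4, a1, b1, H.τ_lt a1.symm (by omega), ?_, ?_⟩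
  · intro r r1 r2 r3
    by_contra hc
    have e := H.eq_iter r1.symm r3.le
    obtain ⟨j, hj⟩ : ∃ j, H.dep r - H.dep p = j + 1 := ⟨H.dep r - H.dep p - 1, by omega⟩
    rw [hj] at e
    have := h3 j (by omega)
    rw [← e, r2] at this
    exact absurd this (by decide)
  · intro r r1 r2 r3
    by_contra hc
    have e := H.eq_iter r1.symm r3.le
    obtain ⟨j, hj⟩ : ∃ j, H.dep r - H.dep (op p) = j + 1 := ⟨H.dep r - H.dep (op p) - 1, by omega⟩
    rw [hj] at e
    have := h5 j (by omega)
    rw [← e, r2] at this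
    exact absurd this (by decide)

/-- in an interval without special crossings the right neighbour of a strand does not change -/
theorem Cut.right_eq (H : Cut nxt op C τ) {lf : P → Bool} {a b : ℕ}
    (hreg : ∀ p, lf p = true → a ≤ τ p → τ p < b → Reg nxt op C lf p) {p q : P}
    (hp : lf p = true) (hq : lf q = true) (h1 : a ≤ τ p) (h2 : τ p ≤ τ q) (h3 : τ q < b)
    (h : H.lab p = H.lab q) : H.lab (op p) = H.lab (op q) := by
  induction hn : τ q - τ p using Nat.strong_induction_on generalizing p with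
  | _ n ih =>
    rcases Nat.lt_trichotomy (H.dep p) (H.dep q) with h4 | h4 | h4
    · obtain ⟨r, r1, r2, r3, r4, r5, -⟩ := H.reg_next (hreg p hp h1 (by omega))
      have r6 := r5 q h.symm hq h4
      have r7 : τ r ≤ τ q := by
        rcases Nat.lt_or_eq_of_le r6 with h5 | h5
        · exact (H.τ_lt (r2.trans h) h5).le
        · rw [H.eq_of_dep (r2.trans h) h5]
      rw [← r3]
      exact ih (τ q - τ r) (by omega) r1 (by omega) r7 (r2.trans h) rfl
    · rw [H.eq_of_dep h h4]
    · exact absurd (H.τ_lt h.symm h4) (by omega)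

/-- in an interval without special crossings the left neighbour of a strand does not change -/
theorem Cut.left_eq (H : Cut nxt op C τ) {lf : P → Bool} (hlf : ∀ p, lf (op p) = !lf p) {a b : ℕ}
    (hreg : ∀ p, lf p = true → a ≤ τ p → τ p < b → Reg nxt op C lf p) {p q : P}
    (hp : lf p = true) (hq : lf q = true) (h1 : a ≤ τ p) (h2 : τ p ≤ τ q) (h3 : τ q < b)
    (h : H.lab (op p) = H.lab (op q)) : H.lab p = H.lab q := by
  induction hn : τ q - τ p using Nat.strong_induction_on generalizing p with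
  | _ n ih =>
    rcases Nat.lt_trichotomy (H.dep (op p)) (H.dep (op q)) with h4 | h4 | h4
    · obtain ⟨r, r1, r2, r3, r4, -, r5⟩ := H.reg_next (hreg p hp h1 (by omega))
      have r6 := r5 (op q) h.symm (by rw [hlf, hq]; rfl) h4
      have r7 : τ r ≤ τ q := by
        rw [← H.τ_op r, ← H.τ_op q]
        rcases Nat.lt_or_eq_of_le r6 with h5 | h5
        · exact (H.τ_lt (r3.trans h) h5).le
        · rw [H.eq_of_dep (r3.trans h) h5]
      rw [← r2]
      exact ih (τ q - τ r) (by omega) r1 (by omega) r7 (r3.trans h) rfl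
    · have h5 := H.eq_of_dep h h4
      have h6 : p = q := by
        rw [← H.op_op p, h5, H.op_op]
      rw [h6]
    · have h5 := H.τ_lt h.symm h4
      rw [H.τ_op, H.τ_op] at h5
      exact absurd h5 (by omega)

/-- the number of the interval of the crossing `p`: even: without special crossings, odd: one
special crossing -/
noncomputable def seg (τ : P → ℕ) (op : P → P) (Sp : Finset P) (p : P) : ℕ :=
  open Classical in
  2 * (Sp.filter fun u => τ u < τ p).card + if p ∈ Sp ∨ op p ∈ Sp then 1 else 0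

theorem seg_op (H : Cut nxt op C τ) (Sp : Finset P) (p : P) :
    seg τ op Sp (op p) = seg τ op Sp p := by
  classical
  unfold seg
  rw [H.τ_op, H.op_op]
  by_cases h : p ∈ Sp ∨ op p ∈ Sp
  · rw [if_pos h, if_pos h.symm]
  · rw [if_neg h, if_neg fun h2 => h h2.symm]

theorem seg_lt (Sp : Finset P) (p : P) : seg τ op Sp p < 2 * (Sp.card + 1) := by
  classical
  unfold seg
  have h1 : (Sp.filter fun u => τ u < τ p).card ≤ Sp.card := Finset.card_filter_le _ _
  split_ifs <;> omega

theorem seg_mono (H : Cut nxt op C τ) (hinj : ∀ p q, τ p = τ q → q = p ∨ q = op p)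
    (Sp : Finset P) {p q : P} (h : τ p ≤ τ q) : seg τ op Sp p ≤ seg τ op Sp q := by
  classical
  rcases Nat.lt_or_eq_of_le h with h1 | h1
  · have h2 : (Sp.filter fun u => τ u < τ p) ⊆ Sp.filter fun u => τ u < τ q := by
      intro u hu
      rw [Finset.mem_filter] at hu ⊢
      exact ⟨hu.1, hu.2.trans h1⟩
    have h3 := Finset.card_le_card h2
    by_cases h4 : p ∈ Sp ∨ op p ∈ Sp
    · obtain ⟨u, hu, hu2⟩ : ∃ u ∈ Sp, τ u = τ p := by
        rcases h4 with h5 | h5
        · exact ⟨p, h5, rfl⟩
        · exact ⟨op p, h5, H.τ_op p⟩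
      have h5 : (Sp.filter fun u => τ u < τ p) ⊂ Sp.filter fun u => τ u < τ q := by
        refine Finset.ssubset_iff_subset_ne.2 ⟨h2, fun he => ?_⟩
        have h6 : u ∈ Sp.filter fun u => τ u < τ q := Finset.mem_filter.2 ⟨hu, by omega⟩
        rw [← he, Finset.mem_filter] at h6
        omega
      have h6 := Finset.card_lt_card h5
      unfold seg
      rw [if_pos h4]
      split_ifs <;> omega
    · unfold seg
      rw [if_neg h4]
      split_ifs <;> omega
  · rcases hinj p q h1 with h2 | h2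
    · rw [h2]
    · rw [h2, seg_op H]

/-- two crossings of one interval are equal or the interval between them is without special
crossings -/
theorem seg_eq (H : Cut nxt op C τ) (hinj : ∀ p q, τ p = τ q → q = p ∨ q = op p)
    (Sp : Finset P) {p q : P} (h : seg τ op Sp p = seg τ op Sp q) (h1 : τ p ≤ τ q) :
    (q = p ∨ q = op p) ∨ ∀ u ∈ Sp, ¬ (τ p ≤ τ u ∧ τ u < τ q + 1) := by
  classical
  by_cases h0 : τ p = τ q
  · exact Or.inl (hinj p q h0)
  right
  rintro u hu ⟨h2, h3⟩
  have hs : (Sp.filter fun u => τ u < τ p) ⊆ Sp.filter fun u => τ u < τ q := by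
    intro u hu
    rw [Finset.mem_filter] at hu ⊢
    exact ⟨hu.1, by omega⟩
  have hc := Finset.card_le_card hs
  have hlt : τ u < τ q → (Sp.filter fun u => τ u < τ p).card <
      (Sp.filter fun u => τ u < τ q).card := by
    intro h4
    refine Finset.card_lt_card (Finset.ssubset_iff_subset_ne.2 ⟨hs, fun he => ?_⟩)
    have h6 : u ∈ Sp.filter fun u => τ u < τ q := Finset.mem_filter.2 ⟨hu, h4⟩
    rw [← he, Finset.mem_filter] at h6
    omega
  unfold seg at h
  rcases Nat.lt_or_eq_of_le (Nat.lt_succ_iff.1 h3) with h4 | h4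
  · have h5 := hlt h4
    split_ifs at h <;> omega
  · -- q is special
    have h5 : q ∈ Sp ∨ op q ∈ Sp := by
      rcases hinj u q h4 with h6 | h6
      · exact Or.inl (h6 ▸ hu)
      · right
        rw [h6, H.op_op]
        exact hu
    rw [if_pos h5] at h
    have h6 : p ∈ Sp ∨ op p ∈ Sp := by
      by_contra h7
      rw [if_neg h7] at h
      omega
    rw [if_pos h6] at h
    -- then p is counted for q
    obtain ⟨v, hv, hv2⟩ : ∃ v ∈ Sp, τ v = τ p := by
      rcases h6 with h7 | h7
      · exact ⟨p, h7, rfl⟩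
      · exact ⟨op p, h7, H.τ_op p⟩
    have h7 : (Sp.filter fun u => τ u < τ p).card < (Sp.filter fun u => τ u < τ q).card := by
      refine Finset.card_lt_card (Finset.ssubset_iff_subset_ne.2 ⟨hs, fun he => ?_⟩)
      have h6 : v ∈ Sp.filter fun u => τ u < τ q := Finset.mem_filter.2 ⟨hv, by omega⟩
      rw [← he, Finset.mem_filter] at h6
      omega
    omega

/-- `x` is the left neighbour of `y` in the interval `σ` -/
def Cut.Nb (H : Cut nxt op C τ) (lf : P → Bool) (Sp : Finset P) (σ : ℕ) (x y : P) : Prop :=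
  ∃ p, lf p = true ∧ seg τ op Sp p = σ ∧ H.lab p = x ∧ H.lab (op p) = y

theorem Cut.seg_right (H : Cut nxt op C τ) (hinj : ∀ p q, τ p = τ q → q = p ∨ q = op p)
    {lf : P → Bool} (hlf : ∀ p, lf (op p) = !lf p) {Sp : Finset P}
    (hSp : ∀ p, lf p = true → p ∉ Sp → Reg nxt op C lf p) {p q : P}
    (hp : lf p = true) (hq : lf q = true) (hs : seg τ op Sp p = seg τ op Sp q)
    (h : H.lab p = H.lab q) : H.lab (op p) = H.lab (op q) := by
  rcases Nat.le_total (τ p) (τ q) with h1 | h1
  · rcases seg_eq H hinj Sp hs h1 with (h2 | h2) | h2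
    · rw [h2]
    · rw [h2, hlf, hp] at hq
      exact absurd hq (by decide)
    · exact H.right_eq (fun r hr hr1 hr2 => hSp r hr fun hr3 => h2 r hr3 ⟨hr1, hr2⟩) hp hq le_rfl
        h1 (Nat.lt_succ_self _) h
  · rcases seg_eq H hinj Sp hs.symm h1 with (h2 | h2) | h2
    · rw [h2]
    · rw [h2, hlf, hq] at hp
      exact absurd hp (by decide)
    · exact (H.right_eq (fun r hr hr1 hr2 => hSp r hr fun hr3 => h2 r hr3 ⟨hr1, hr2⟩) hq hp le_rfl
        h1 (Nat.lt_succ_self _) h.symm).symm

theorem Cut.seg_left (H : Cut nxt op C τ) (hinj : ∀ p q, τ p = τ q → q = p ∨ q = op p)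
    {lf : P → Bool} (hlf : ∀ p, lf (op p) = !lf p) {Sp : Finset P}
    (hSp : ∀ p, lf p = true → p ∉ Sp → Reg nxt op C lf p) {p q : P}
    (hp : lf p = true) (hq : lf q = true) (hs : seg τ op Sp p = seg τ op Sp q)
    (h : H.lab (op p) = H.lab (op q)) : H.lab p = H.lab q := by
  rcases Nat.le_total (τ p) (τ q) with h1 | h1
  · rcases seg_eq H hinj Sp hs h1 with (h2 | h2) | h2
    · rw [h2]
    · rw [h2, hlf, hp] at hq
      exact absurd hq (by decide)
    · exact H.left_eq hlf (fun r hr hr1 hr2 => hSp r hr fun hr3 => h2 r hr3 ⟨hr1, hr2⟩) hp hq le_rfl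
        h1 (Nat.lt_succ_self _) h
  · rcases seg_eq H hinj Sp hs.symm h1 with (h2 | h2) | h2
    · rw [h2]
    · rw [h2, hlf, hq] at hp
      exact absurd hp (by decide)
    · exact (H.left_eq hlf (fun r hr hr1 hr2 => hSp r hr fun hr3 => h2 r hr3 ⟨hr1, hr2⟩) hq hp
        le_rfl h1 (Nat.lt_succ_self _) h.symm).symm

end Pool.Agent.Helper41.PD
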